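import Mathlib

/-!
# A conditional prefix-complexity-like function which is not the complexity of any algorithm

There is an upper semicomputable `K(x | y)` with values in `ℕ` and `∑_x 2^{-K(x|y)} ≤ 1` for all `y`,
which differs from `C_U(x | y)` for every prefix-free and for every prefix-stable conditional
algorithm `U`.

The proof is a finite game on every condition `y`, against the algorithm whose number is the length
of `y`. Two strings `x₁`, `x₂` get complexity `3`; we wait for programs `p₁`, `p₂` of length `3`. If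
they begin with different bits, `x₃` gets complexity `1`; if they begin with the same bit, `x₁` gets
complexity `1`, `x₃` complexity `2` and `x₄` complexity `4`.
-/

set_option autoImplicit false

namespace Pool.Agent.Results.MP_6b7d8e_lc.NotRealisable

open Nat.Partrec (Code)
open Nat.Partrec.Code
open scoped ENNReal

/-- `U` is prefix-free: for every fixed condition `y`, its domain contains no two different programs
one of which is a prefix of the other. -/
def PrefixFree (U : List Bool → List Bool →. List Bool) : Prop :=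
  ∀ y p p' : List Bool, (U p y).Dom → (U p' y).Dom → p <+: p' → p = p'

/-- `U` is prefix-stable: `U(p, y) = x` implies `U(p', y) = x` for every extension `p'` of `p`. -/
def PrefixStable (U : List Bool → List Bool →. List Bool) : Prop :=
  ∀ y p p' x : List Bool, x ∈ U p y → p <+: p' → x ∈ U p' y

/-- `C_U(x | y) = K(x | y)` for all `x`, `y`, where `C_U(x | y) = min {|p| : U(p, y) = x}`. -/
def Realises (U : List Bool → List Bool →. List Bool) (K : List Bool → List Bool → ℕ) : Prop :=
  ∀ x y : List Bool, IsLeast {n : ℕ | ∃ p : List Bool, x ∈ U p y ∧ p.length = n} (K x y)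

/-- `K` is upper semicomputable: it is the limit of a uniformly computable sequence of total functions
that is non-increasing. -/
def UpperSemicomputable (K : List Bool → List Bool → ℕ) : Prop :=
  ∃ Kn : ℕ → List Bool → List Bool → ℕ,
    Computable (fun a : ℕ × List Bool × List Bool => Kn a.1 a.2.1 a.2.2) ∧
    (∀ n x y, Kn (n + 1) x y ≤ Kn n x y) ∧
    ∀ x y, ∃ n₀, ∀ n, n₀ ≤ n → Kn n x y = K x y

/-- Admissible functions. -/
def Admissible (K : List Bool → List Bool → ℕ) : Prop :=
  UpperSemicomputable K ∧ ∀ y : List Bool, ∑' x : List Bool, (2 : ℝ≥0∞)⁻¹ ^ (K x y) ≤ 1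

/-! ### The four strings -/

/-- `x₁` -/
def x1 : List Bool := []
/-- `x₂` -/
def x2 : List Bool := [false]
/-- `x₃` -/
def x3 : List Bool := [true]
/-- `x₄` -/
def x4 : List Bool := [false, false]

/-! ### The strategy -/

/-- within `n` steps, the algorithm with number `|y|` outputs `x` on the program `p` under the
condition `y` -/
def found (n : ℕ) (y p x : List Bool) : Bool :=
  decide (evaln n (Denumerable.ofNat Code y.length) (Encodable.encode (p, y)) =
    some (Encodable.encode x))

/-- a program of length `3` with first bit `b` has been found -/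
def foundHalf (n : ℕ) (y : List Bool) (b : Bool) (x : List Bool) : Bool :=
  found n y [b, false, false] x || found n y [b, false, true] x ||
    (found n y [b, true, false] x || found n y [b, true, true] x)

/-- programs in different halves have been found -/
def caseA (n : ℕ) (y : List Bool) : Bool :=
  (foundHalf n y false x1 && foundHalf n y true x2) ||
    (foundHalf n y true x1 && foundHalf n y false x2)

/-- programs in the same half have been found -/
def caseB (n : ℕ) (y : List Bool) : Bool :=
  (foundHalf n y false x1 && foundHalf n y false x2) ||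
    (foundHalf n y true x1 && foundHalf n y true x2)

/-- the phase of the game: `0` waiting, `1` after the event `A`, `2` after the event `B` -/
def phase (y : List Bool) : ℕ → ℕ
  | 0 => 0
  | n + 1 => if phase y n = 0 then
      (if caseA n y = true then 1 else if caseB n y = true then 2 else 0) else phase y n

/-- the value of `K(x | y)` in the phase `s` -/
def val (s : ℕ) (x : List Bool) : ℕ :=
  if x = x1 then (if s = 2 then 1 else 3)
  else if x = x2 then 3
  else if x = x3 then (if s = 0 then 10 else s)
  else if x = x4 then (if s = 2 then 4 else 10)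
  else 2 * x.length + 6

/-- the approximations -/
def Kn (n : ℕ) (x y : List Bool) : ℕ := val (phase y n) x

/-! ### Computability -/

theorem found_primrec (p x : List Bool) :
    Primrec (fun a : ℕ × List Bool => found a.1 a.2 p x) := by
  have h1 : Primrec (fun a : ℕ × List Bool => Denumerable.ofNat Code a.2.length) :=
    (Primrec.ofNat Code).comp (Primrec.list_length.comp Primrec.snd)
  have h2 : Primrec (fun a : ℕ × List Bool => Encodable.encode (p, a.2)) :=
    Primrec.encode.comp (Primrec.pair (Primrec.const p) Primrec.snd)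
  have h3 : Primrec (fun a : ℕ × List Bool =>
      evaln a.1 (Denumerable.ofNat Code a.2.length) (Encodable.encode (p, a.2))) :=
    primrec_evaln.comp (Primrec.pair (Primrec.pair Primrec.fst h1) h2)
  exact (Primrec.eq.comp h3 (Primrec.const (some (Encodable.encode x)))).decide

theorem foundHalf_primrec (b : Bool) (x : List Bool) :
    Primrec (fun a : ℕ × List Bool => foundHalf a.1 a.2 b x) := by
  unfold foundHalf
  exact Primrec.or.comp (Primrec.or.comp (found_primrec _ _) (found_primrec _ _))
    (Primrec.or.comp (found_primrec _ _) (found_primrec _ _))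

theorem caseA_primrec : Primrec (fun a : ℕ × List Bool => caseA a.1 a.2) := by
  unfold caseA
  exact Primrec.or.comp (Primrec.and.comp (foundHalf_primrec _ _) (foundHalf_primrec _ _))
    (Primrec.and.comp (foundHalf_primrec _ _) (foundHalf_primrec _ _))

theorem caseB_primrec : Primrec (fun a : ℕ × List Bool => caseB a.1 a.2) := by
  unfold caseB
  exact Primrec.or.comp (Primrec.and.comp (foundHalf_primrec _ _) (foundHalf_primrec _ _))
    (Primrec.and.comp (foundHalf_primrec _ _) (foundHalf_primrec _ _))

theorem phase_primrec : Primrec₂ (fun (y : List Bool) (n : ℕ) => phase y n) := by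
  have hstep : Primrec₂ (fun (y : List Bool) (q : ℕ × ℕ) =>
      if q.2 = 0 then (if caseA q.1 y = true then 1 else if caseB q.1 y = true then 2 else 0)
      else q.2) := by
    have hn : Primrec (fun a : List Bool × (ℕ × ℕ) => (a.2.1, a.1)) :=
      Primrec.pair (Primrec.fst.comp Primrec.snd) Primrec.fst
    have hA := caseA_primrec.comp hn
    have hB := caseB_primrec.comp hn
    refine Primrec.ite (Primrec.eq.comp (Primrec.snd.comp Primrec.snd) (Primrec.const 0)) ?_
      (Primrec.snd.comp Primrec.snd)
    refine Primrec.ite (Primrec.eq.comp hA (Primrec.const true)) (Primrec.const 1) ?_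
    exact Primrec.ite (Primrec.eq.comp hB (Primrec.const true)) (Primrec.const 2)
      (Primrec.const 0)
  have h := Primrec.nat_rec (f := fun _ : List Bool => 0) (Primrec.const 0) hstep
  refine h.of_eq ?_
  intro y n
  induction n with
  | zero => rfl
  | succ n ih =>
    simp only [phase]
    rw [← ih]

theorem val_primrec : Primrec₂ (fun (s : ℕ) (x : List Bool) => val s x) := by
  unfold val
  have hx : Primrec (fun a : ℕ × List Bool => a.2) := Primrec.snd
  have hs : Primrec (fun a : ℕ × List Bool => a.1) := Primrec.fst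
  refine Primrec.ite (Primrec.eq.comp hx (Primrec.const x1))
    (Primrec.ite (Primrec.eq.comp hs (Primrec.const 2)) (Primrec.const 1) (Primrec.const 3)) ?_
  refine Primrec.ite (Primrec.eq.comp hx (Primrec.const x2)) (Primrec.const 3) ?_
  refine Primrec.ite (Primrec.eq.comp hx (Primrec.const x3))
    (Primrec.ite (Primrec.eq.comp hs (Primrec.const 0)) (Primrec.const 10) hs) ?_
  refine Primrec.ite (Primrec.eq.comp hx (Primrec.const x4))
    (Primrec.ite (Primrec.eq.comp hs (Primrec.const 2)) (Primrec.const 4) (Primrec.const 10)) ?_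
  exact Primrec.nat_add.comp (Primrec.nat_mul.comp (Primrec.const 2)
    (Primrec.list_length.comp hx)) (Primrec.const 6)

theorem Kn_computable : Computable (fun a : ℕ × List Bool × List Bool => Kn a.1 a.2.1 a.2.2) := by
  have h1 : Primrec (fun a : ℕ × List Bool × List Bool => phase a.2.2 a.1) :=
    phase_primrec.comp (Primrec.snd.comp Primrec.snd) Primrec.fst
  exact (val_primrec.comp h1 (Primrec.fst.comp Primrec.snd)).to_comp

/-! ### The limit -/

theorem phase_le (y : List Bool) (n : ℕ) : phase y n ≤ 2 := by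
  induction n with
  | zero => simp [phase]
  | succ n ih =>
    simp only [phase]
    split_ifs <;> omega

theorem phase_stable {y : List Bool} {n : ℕ} (h : phase y n ≠ 0) (m : ℕ) (hm : n ≤ m) :
    phase y m = phase y n := by
  induction m, hm using Nat.le_induction with
  | base => rfl
  | succ m hm ih =>
    simp only [phase]
    rw [ih, if_neg h]

open Classical in
/-- the final phase -/
noncomputable def fin (y : List Bool) : ℕ :=
  if h : ∃ n, phase y n ≠ 0 then phase y h.choose else 0

theorem phase_fin (y : List Bool) : ∃ n₀, ∀ n, n₀ ≤ n → phase y n = fin y := by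
  classical
  by_cases h : ∃ n, phase y n ≠ 0
  · refine ⟨h.choose, fun n hn => ?_⟩
    rw [fin, dif_pos h]
    exact phase_stable h.choose_spec n hn
  · refine ⟨0, fun n _ => ?_⟩
    rw [fin, dif_neg h]
    push Not at h
    exact h n

/-- the function `K` -/
noncomputable def K (x y : List Bool) : ℕ := val (fin y) x

theorem val_mono (s : ℕ) (hs : s ≤ 2) (x : List Bool) : val s x ≤ val 0 x := by
  have hs' : s = 0 ∨ s = 1 ∨ s = 2 := by omega
  unfold val
  rcases hs' with rfl | rfl | rfl
  · exact le_rfl
  · split_ifs <;> simp_all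
  · split_ifs <;> simp_all

theorem Kn_mono (n : ℕ) (x y : List Bool) : Kn (n + 1) x y ≤ Kn n x y := by
  unfold Kn
  by_cases h : phase y n = 0
  · rw [h]; exact val_mono _ (phase_le y _) x
  · rw [phase_stable h (n + 1) (by omega)]

theorem K_usc : UpperSemicomputable K := by
  refine ⟨Kn, Kn_computable, Kn_mono, fun x y => ?_⟩
  obtain ⟨n₀, h⟩ := phase_fin y
  exact ⟨n₀, fun n hn => by unfold Kn K; rw [h n hn]⟩

theorem fin_le (y : List Bool) : fin y ≤ 2 := by
  obtain ⟨n₀, h⟩ := phase_fin y
  rw [← h n₀ le_rfl]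
  exact phase_le y n₀

/-! ### The sum -/

theorem card_length (s : Finset (List Bool)) (n : ℕ) :
    (s.filter (fun x => x.length = n)).card ≤ 2 ^ n := by
  classical
  have h : (Finset.univ : Finset (List.Vector Bool n)).card = 2 ^ n := by
    rw [Finset.card_univ, card_vector]; simp
  rw [← h]
  have hsub : s.filter (fun x => x.length = n) ⊆
      (Finset.univ : Finset (List.Vector Bool n)).image (fun v => v.toList) := by
    intro x hx
    rw [Finset.mem_filter] at hx
    rw [Finset.mem_image]
    exact ⟨⟨x, hx.2⟩, Finset.mem_univ _, rfl⟩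
  exact (Finset.card_le_card hsub).trans Finset.card_image_le

theorem geom (M : ℕ) : ∑ n ∈ Finset.range M, ((1 : ℝ) / 2) ^ (n + 6) ≤ 1 / 32 := by
  have h : ∑ n ∈ Finset.range M, ((1 : ℝ) / 2) ^ (n + 6) = 1 / 32 - (1 / 2) ^ (M + 5) := by
    induction M with
    | zero => norm_num
    | succ M ih => rw [Finset.sum_range_succ, ih]; ring
  rw [h]
  have : (0 : ℝ) ≤ (1 / 2) ^ (M + 5) := by positivity
  linarith

theorem sum_len (s : Finset (List Bool)) :
    ∑ x ∈ s, ((1 : ℝ) / 2) ^ (2 * x.length + 6) ≤ 1 / 32 := by
  classical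
  obtain ⟨M, hM⟩ : ∃ M, ∀ x ∈ s, x.length < M := by
    refine ⟨s.sup List.length + 1, fun x hx => ?_⟩
    have := Finset.le_sup (f := List.length) hx
    omega
  have h1 : ∑ x ∈ s, ((1 : ℝ) / 2) ^ (2 * x.length + 6) =
      ∑ n ∈ Finset.range M, ∑ x ∈ s.filter (fun x => x.length = n),
        ((1 : ℝ) / 2) ^ (2 * x.length + 6) := by
    rw [Finset.sum_fiberwise_of_maps_to]
    intro x hx
    rw [Finset.mem_range]
    exact hM x hx
  rw [h1]
  refine le_trans (Finset.sum_le_sum fun n _ => ?_) (geom M)
  calc ∑ x ∈ s.filter (fun x => x.length = n), ((1 : ℝ) / 2) ^ (2 * x.length + 6)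
      = ∑ x ∈ s.filter (fun x => x.length = n), ((1 : ℝ) / 2) ^ (2 * n + 6) := by
        refine Finset.sum_congr rfl fun x hx => ?_
        rw [Finset.mem_filter] at hx
        rw [hx.2]
    _ = ((s.filter (fun x => x.length = n)).card : ℝ) * ((1 : ℝ) / 2) ^ (2 * n + 6) := by
        rw [Finset.sum_const, nsmul_eq_mul]
    _ ≤ (2 : ℝ) ^ n * ((1 : ℝ) / 2) ^ (2 * n + 6) := by
        apply mul_le_mul_of_nonneg_right _ (by positivity)
        exact_mod_cast card_length s n
    _ = ((1 : ℝ) / 2) ^ (n + 6) := by
        have : (2 : ℝ) * (1 / 2) = 1 := by norm_num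
        have h2 : ((1 : ℝ) / 2) ^ (2 * n + 6) = (1 / 2) ^ n * (1 / 2) ^ (n + 6) := by
          rw [← pow_add]; congr 1; omega
        rw [h2, ← mul_assoc, ← mul_pow, this, one_pow, one_mul]

/-- the contribution of the four special strings -/
noncomputable def special (s : ℕ) (x : List Bool) : ℝ :=
  if x = x1 ∨ x = x2 ∨ x = x3 ∨ x = x4 then ((1 : ℝ) / 2) ^ (val s x) else 0

theorem sum_special (s : ℕ) (hs : s ≤ 2) (t : Finset (List Bool)) :
    ∑ x ∈ t, special s x ≤ 15 / 16 := by
  classical
  have hnn : ∀ x, 0 ≤ special s x := by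
    intro x; unfold special; split_ifs <;> positivity
  have h1 : ∑ x ∈ t, special s x ≤ ∑ x ∈ t ∪ {x1, x2, x3, x4}, special s x :=
    Finset.sum_le_sum_of_subset_of_nonneg Finset.subset_union_left (fun x _ _ => hnn x)
  have h2 : ∑ x ∈ t ∪ {x1, x2, x3, x4}, special s x =
      ∑ x ∈ ({x1, x2, x3, x4} : Finset (List Bool)), special s x := by
    symm
    apply Finset.sum_subset Finset.subset_union_right
    intro x _ hx
    unfold special
    rw [if_neg]
    simpa using hx
  rw [h2] at h1
  refine h1.trans ?_
  rw [Finset.sum_insert (by decide), Finset.sum_insert (by decide), Finset.sum_insert (by decide),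
    Finset.sum_singleton]
  have e1 : special s x1 = ((1 : ℝ) / 2) ^ (val s x1) := by simp [special]
  have e2 : special s x2 = ((1 : ℝ) / 2) ^ (val s x2) := by simp [special]
  have e3 : special s x3 = ((1 : ℝ) / 2) ^ (val s x3) := by simp [special]
  have e4 : special s x4 = ((1 : ℝ) / 2) ^ (val s x4) := by simp [special]
  rw [e1, e2, e3, e4]
  have hs' : s = 0 ∨ s = 1 ∨ s = 2 := by omega
  rcases hs' with rfl | rfl | rfl
  · have v1 : val 0 x1 = 3 := rfl
    have v2 : val 0 x2 = 3 := rfl
    have v3 : val 0 x3 = 10 := rfl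
    have v4 : val 0 x4 = 10 := rfl
    rw [v1, v2, v3, v4]; norm_num
  · have v1 : val 1 x1 = 3 := rfl
    have v2 : val 1 x2 = 3 := rfl
    have v3 : val 1 x3 = 1 := rfl
    have v4 : val 1 x4 = 10 := rfl
    rw [v1, v2, v3, v4]; norm_num
  · have v1 : val 2 x1 = 1 := rfl
    have v2 : val 2 x2 = 3 := rfl
    have v3 : val 2 x3 = 2 := rfl
    have v4 : val 2 x4 = 4 := rfl
    rw [v1, v2, v3, v4]; norm_num

theorem sum_val (s : ℕ) (hs : s ≤ 2) (t : Finset (List Bool)) :
    ∑ x ∈ t, ((1 : ℝ) / 2) ^ (val s x) ≤ 1 := by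
  have h1 : ∀ x, ((1 : ℝ) / 2) ^ (val s x) ≤ special s x + ((1 : ℝ) / 2) ^ (2 * x.length + 6) := by
    intro x
    unfold special
    split_ifs with h
    · have : (0 : ℝ) ≤ (1 / 2) ^ (2 * x.length + 6) := by positivity
      linarith
    · push Not at h
      have : val s x = 2 * x.length + 6 := by
        unfold val
        rw [if_neg h.1, if_neg h.2.1, if_neg h.2.2.1, if_neg h.2.2.2]
      rw [this, zero_add]
  calc ∑ x ∈ t, ((1 : ℝ) / 2) ^ (val s x)
      ≤ ∑ x ∈ t, (special s x + ((1 : ℝ) / 2) ^ (2 * x.length + 6)) :=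
        Finset.sum_le_sum fun x _ => h1 x
    _ = ∑ x ∈ t, special s x + ∑ x ∈ t, ((1 : ℝ) / 2) ^ (2 * x.length + 6) :=
        Finset.sum_add_distrib
    _ ≤ 15 / 16 + 1 / 32 := add_le_add (sum_special s hs t) (sum_len t)
    _ ≤ 1 := by norm_num

theorem K_sum (y : List Bool) : ∑' x : List Bool, (2 : ℝ≥0∞)⁻¹ ^ (K x y) ≤ 1 := by
  rw [ENNReal.tsum_eq_iSup_sum]
  apply iSup_le
  intro t
  have h1 : ∀ k : ℕ, (2 : ℝ≥0∞)⁻¹ ^ k = ENNReal.ofReal (((1 : ℝ) / 2) ^ k) := by
    intro k
    rw [ENNReal.ofReal_pow (by norm_num), one_div, ENNReal.ofReal_inv_of_pos (by norm_num)]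
    simp
  simp only [h1]
  rw [← ENNReal.ofReal_sum_of_nonneg (fun x _ => by positivity)]
  rw [ENNReal.ofReal_le_one]
  exact sum_val (fin y) (fin_le y) t

theorem K_admissible : Admissible K := ⟨K_usc, K_sum⟩

/-! ### The game -/

/-- what the algorithm `U` outputs on the programs extending `p` -/
def Out (U : List Bool → List Bool →. List Bool) (y p x : List Bool) : Prop :=
  ∃ q, q <+: p ∧ x ∈ U q y

theorem Out.mono {U : List Bool → List Bool →. List Bool} {y p p' x : List Bool}
    (h : Out U y p x) (hp : p <+: p') : Out U y p' x := by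
  obtain ⟨q, h1, h2⟩ := h
  exact ⟨q, h1.trans hp, h2⟩

theorem Out.unique {U : List Bool → List Bool →. List Bool}
    (hU : PrefixFree U ∨ PrefixStable U) {y p x x' : List Bool}
    (h : Out U y p x) (h' : Out U y p x') : x = x' := by
  obtain ⟨q, h1, h2⟩ := h
  obtain ⟨q', h1', h2'⟩ := h'
  rcases hU with hU | hU
  · have hq : q = q' := by
      rcases List.prefix_or_prefix_of_prefix h1 h1' with h3 | h3
      · exact hU y q q' (Part.dom_iff_mem.mpr ⟨x, h2⟩) (Part.dom_iff_mem.mpr ⟨x', h2'⟩) h3
      · exact (hU y q' q (Part.dom_iff_mem.mpr ⟨x', h2'⟩) (Part.dom_iff_mem.mpr ⟨x, h2⟩) h3).symm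
    subst hq
    exact Part.mem_unique h2 h2'
  · exact Part.mem_unique (hU y q p x h2 h1) (hU y q' p x' h2' h1')

theorem len1 {p : List Bool} (h : p.length = 1) : ∃ a, p = [a] := by
  match p, h with
  | [a], _ => exact ⟨a, rfl⟩

theorem len2 {p : List Bool} (h : p.length = 2) : ∃ a b, p = [a, b] := by
  match p, h with
  | [a, b], _ => exact ⟨a, b, rfl⟩

theorem len3 {p : List Bool} (h : p.length = 3) : ∃ a b c, p = [a, b, c] := by
  match p, h with
  | [a, b, c], _ => exact ⟨a, b, c, rfl⟩

theorem len4 {p : List Bool} (h : p.length = 4) : ∃ a b c d, p = [a, b, c, d] := by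
  match p, h with
  | [a, b, c, d], _ => exact ⟨a, b, c, d, rfl⟩

theorem pre1 (a b c : Bool) (l : List Bool) (h : a = b) : [a] <+: b :: c :: l := by
  subst h; exact ⟨c :: l, rfl⟩

theorem pre2 (a b c d : Bool) (l : List Bool) (h : a = c) (h' : b = d) :
    [a, b] <+: c :: d :: l := by
  subst h h'; exact ⟨l, rfl⟩

theorem pre3 (a b c d e f : Bool) (l : List Bool) (h : a = d) (h' : b = e) (h'' : c = f) :
    [a, b, c] <+: d :: e :: f :: l := by
  subst h h' h''; exact ⟨l, rfl⟩

theorem bool_ne {a b c : Bool} (h : a ≠ b) (h' : a ≠ c) : b = c := by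
  cases a <;> cases b <;> cases c <;> simp_all

/-- the end of the game after the event `A` -/
theorem gameA {U : List Bool → List Bool →. List Bool} (hU : PrefixFree U ∨ PrefixStable U)
    {y : List Bool} {a a1 a2 b b1 b2 : Bool} (hab : a ≠ b)
    (h1 : Out U y [a, a1, a2] x1) (h2 : Out U y [b, b1, b2] x2)
    {p : List Bool} (hp : p.length = 1) (h3 : Out U y p x3) : False := by
  obtain ⟨c, rfl⟩ := len1 hp
  by_cases hc : c = a
  · have := (h3.mono (pre1 c a a1 [a2] hc)).unique hU h1
    exact absurd this (by decide)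
  · have hcb : c = b := by
      cases a <;> cases b <;> cases c <;> simp_all
    have := (h3.mono (pre1 c b b1 [b2] hcb)).unique hU h2
    exact absurd this (by decide)

/-- the end of the game after the event `B` -/
theorem gameB {U : List Bool → List Bool →. List Bool} (hU : PrefixFree U ∨ PrefixStable U)
    {y : List Bool} {a a1 a2 b1 b2 : Bool}
    (h1 : Out U y [a, a1, a2] x1) (h2 : Out U y [a, b1, b2] x2)
    {q1 q3 q4 : List Bool} (hq1 : q1.length = 1) (hq3 : q3.length = 2) (hq4 : q4.length = 4)
    (k1 : Out U y q1 x1) (k3 : Out U y q3 x3) (k4 : Out U y q4 x4) : False := by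
  obtain ⟨c, rfl⟩ := len1 hq1
  obtain ⟨d, d1, rfl⟩ := len2 hq3
  obtain ⟨e, e1, e2, e3, rfl⟩ := len4 hq4
  have hca : c ≠ a := by
    intro h
    exact absurd ((k1.mono (pre1 c a b1 [b2] h)).unique hU h2) (by decide)
  have hcd : c ≠ d := by
    intro h
    exact absurd ((k1.mono (pre1 c d d1 [] h)).unique hU k3) (by decide)
  have hce : c ≠ e := by
    intro h
    exact absurd ((k1.mono (pre1 c e e1 [e2, e3] h)).unique hU k4) (by decide)
  have hda : d = a := (bool_ne hca hcd).symm
  have hde : d = e := bool_ne hcd hce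
  have h5 : d1 ≠ a1 := by
    intro h
    exact absurd ((k3.mono (pre2 d d1 a a1 [a2] hda h)).unique hU h1) (by decide)
  have h6 : d1 ≠ b1 := by
    intro h
    exact absurd ((k3.mono (pre2 d d1 a b1 [b2] hda h)).unique hU h2) (by decide)
  have h7 : d1 ≠ e1 := by
    intro h
    exact absurd ((k3.mono (pre2 d d1 e e1 [e2, e3] hde h)).unique hU k4) (by decide)
  have h8 : a1 = b1 := bool_ne h5 h6
  have h9 : a1 = e1 := bool_ne h5 h7
  have h10 : a2 ≠ b2 := by
    intro h
    subst h8 h
    exact absurd (h1.unique hU h2) (by decide)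
  have h11 : a2 ≠ e2 := by
    intro h
    exact absurd ((h1.mono (pre3 a a1 a2 e e1 e2 [e3] (hda.symm.trans hde) h9 h)).unique hU k4)
      (by decide)
  have h12 : b2 ≠ e2 := by
    intro h
    exact absurd ((h2.mono (pre3 a b1 b2 e e1 e2 [e3] (hda.symm.trans hde)
      (h8.symm.trans h9) h)).unique hU k4) (by decide)
  exact h12 (bool_ne h10 h11)

theorem foundHalf_spec {n : ℕ} {y : List Bool} {b : Bool} {x : List Bool}
    (h : foundHalf n y b x = true) : ∃ b1 b2, found n y [b, b1, b2] x = true := by
  unfold foundHalf at h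
  simp only [Bool.or_eq_true] at h
  rcases h with (h | h) | (h | h)
  · exact ⟨_, _, h⟩
  · exact ⟨_, _, h⟩
  · exact ⟨_, _, h⟩
  · exact ⟨_, _, h⟩

theorem foundHalf_of {n : ℕ} {y : List Bool} {b b1 b2 : Bool} {x : List Bool}
    (h : found n y [b, b1, b2] x = true) : foundHalf n y b x = true := by
  unfold foundHalf
  simp only [Bool.or_eq_true]
  cases b1 <;> cases b2 <;> simp [h]

theorem not_realised {U : List Bool → List Bool →. List Bool} (hc : Partrec₂ U)
    (hU : PrefixFree U ∨ PrefixStable U) : ¬ Realises U K := by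
  intro hR
  obtain ⟨c, hc⟩ := exists_code.mp hc
  set y : List Bool := List.replicate (Encodable.encode c) true with hy
  have hylen : Denumerable.ofNat Code y.length = c := by
    rw [hy, List.length_replicate]
    exact Denumerable.ofNat_encode c
  have heval : ∀ p x : List Bool, Encodable.encode x ∈ eval c (Encodable.encode (p, y)) ↔
      x ∈ U p y := by
    intro p x
    rw [hc]
    simp only [Encodable.encodek, Part.coe_some, Part.bind_some, Part.mem_map_iff]
    constructor
    · rintro ⟨a, ha, h⟩
      rw [Encodable.encode_inj] at h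
      subst h; exact ha
    · intro h; exact ⟨x, h, rfl⟩
  have hfound : ∀ {n : ℕ} {p x : List Bool}, found n y p x = true → x ∈ U p y := by
    intro n p x h
    unfold found at h
    rw [decide_eq_true_eq, hylen] at h
    exact (heval p x).mp (evaln_sound h)
  have hfound2 : ∀ {p x : List Bool}, x ∈ U p y → ∃ n₀, ∀ n, n₀ ≤ n → found n y p x = true := by
    intro p x h
    obtain ⟨n, hn⟩ := evaln_complete.mp ((heval p x).mpr h)
    refine ⟨n, fun m hm => ?_⟩
    unfold found
    rw [decide_eq_true_eq, hylen]
    exact evaln_mono hm hn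
  have hout : ∀ {p x : List Bool}, x ∈ U p y → Out U y p x := fun h => ⟨_, List.prefix_rfl, h⟩
  -- the programs of the final complexities
  have hprog : ∀ x, ∃ p : List Bool, p.length = K x y ∧ x ∈ U p y := by
    intro x
    obtain ⟨⟨p, h1, h2⟩, _⟩ := hR x y
    exact ⟨p, h2, h1⟩
  obtain ⟨n₀, hn₀⟩ := phase_fin y
  -- the phase does not stay 0
  have hne : ∃ n, phase y n ≠ 0 := by
    by_contra hcon
    push Not at hcon
    have hfin : fin y = 0 := by rw [← hn₀ n₀ le_rfl, hcon]
    obtain ⟨p1, hp1, hp1'⟩ := hprog x1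
    obtain ⟨p2, hp2, hp2'⟩ := hprog x2
    have v1 : K x1 y = 3 := by unfold K; rw [hfin]; rfl
    have v2 : K x2 y = 3 := by unfold K; rw [hfin]; rfl
    rw [v1] at hp1
    rw [v2] at hp2
    obtain ⟨a, a1, a2, rfl⟩ := len3 hp1
    obtain ⟨b, b1, b2, rfl⟩ := len3 hp2
    obtain ⟨m1, hm1⟩ := hfound2 hp1'
    obtain ⟨m2, hm2⟩ := hfound2 hp2'
    have g1 := foundHalf_of (hm1 (max m1 m2) (le_max_left _ _))
    have g2 := foundHalf_of (hm2 (max m1 m2) (le_max_right _ _))
    have hstep := hcon (max m1 m2 + 1)
    simp only [phase] at hstep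
    rw [if_pos (hcon _)] at hstep
    by_cases hA : caseA (max m1 m2) y = true
    · rw [if_pos hA] at hstep; omega
    · rw [if_neg hA] at hstep
      by_cases hB : caseB (max m1 m2) y = true
      · rw [if_pos hB] at hstep; omega
      · apply hA
        unfold caseA
        unfold caseB at hB
        cases a <;> cases b <;> simp [g1, g2] at hB ⊢
  -- the first nonzero phase
  classical
  have hspec := Nat.find_spec hne
  set m := Nat.find hne with hm
  have hm0 : m ≠ 0 := by
    intro h
    rw [h] at hspec
    exact hspec rfl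
  obtain ⟨k, hk⟩ := Nat.exists_eq_succ_of_ne_zero hm0
  have hkz : phase y k = 0 := by
    by_contra h
    have := Nat.find_min' hne h
    omega
  have hfinm : fin y = phase y m := by
    rw [← hn₀ (max n₀ m) (le_max_left _ _)]
    exact phase_stable hspec _ (le_max_right _ _)
  rw [hk] at hspec hfinm
  simp only [phase] at hspec hfinm
  rw [if_pos hkz] at hspec hfinm
  by_cases hA : caseA k y = true
  · rw [if_pos hA] at hfinm
    obtain ⟨p3, hp3, hp3'⟩ := hprog x3
    have v3 : K x3 y = 1 := by unfold K; rw [hfinm]; rfl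
    rw [v3] at hp3
    unfold caseA at hA
    simp only [Bool.or_eq_true, Bool.and_eq_true] at hA
    rcases hA with ⟨h1, h2⟩ | ⟨h1, h2⟩
    · obtain ⟨a1, a2, g1⟩ := foundHalf_spec h1
      obtain ⟨b1, b2, g2⟩ := foundHalf_spec h2
      exact gameA hU (by decide) (hout (hfound g1)) (hout (hfound g2)) hp3 (hout hp3')
    · obtain ⟨a1, a2, g1⟩ := foundHalf_spec h1
      obtain ⟨b1, b2, g2⟩ := foundHalf_spec h2
      exact gameA hU (by decide) (hout (hfound g1)) (hout (hfound g2)) hp3 (hout hp3')
  · rw [if_neg hA] at hspec hfinm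
    by_cases hB : caseB k y = true
    · rw [if_pos hB] at hfinm
      obtain ⟨p1, hp1, hp1'⟩ := hprog x1
      obtain ⟨p3, hp3, hp3'⟩ := hprog x3
      obtain ⟨p4, hp4, hp4'⟩ := hprog x4
      have v1 : K x1 y = 1 := by unfold K; rw [hfinm]; rfl
      have v3 : K x3 y = 2 := by unfold K; rw [hfinm]; rfl
      have v4 : K x4 y = 4 := by unfold K; rw [hfinm]; rfl
      rw [v1] at hp1
      rw [v3] at hp3
      rw [v4] at hp4
      unfold caseB at hB
      simp only [Bool.or_eq_true, Bool.and_eq_true] at hB
      rcases hB with ⟨h1, h2⟩ | ⟨h1, h2⟩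
      · obtain ⟨a1, a2, g1⟩ := foundHalf_spec h1
        obtain ⟨b1, b2, g2⟩ := foundHalf_spec h2
        exact gameB hU (hout (hfound g1)) (hout (hfound g2)) hp1 hp3 hp4 (hout hp1')
          (hout hp3') (hout hp4')
      · obtain ⟨a1, a2, g1⟩ := foundHalf_spec h1
        obtain ⟨b1, b2, g2⟩ := foundHalf_spec h2
        exact gameB hU (hout (hfound g1)) (hout (hfound g2)) hp1 hp3 hp4 (hout hp1')
          (hout hp3') (hout hp4')
    · rw [if_neg hB] at hspec
      exact hspec rfl

/-- **Main theorem.** There is an admissible `K` that differs from `C_U` for every prefix-free and for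
every prefix-stable conditional algorithm `U`. -/
theorem result : ∃ K : List Bool → List Bool → ℕ, Admissible K ∧
    (∀ U : List Bool → List Bool →. List Bool, Partrec₂ U → PrefixFree U → ¬ Realises U K) ∧
    (∀ U : List Bool → List Bool →. List Bool, Partrec₂ U → PrefixStable U → ¬ Realises U K) :=
  ⟨K, K_admissible, fun _ hc hU => not_realised hc (Or.inl hU),
    fun _ hc hU => not_realised hc (Or.inr hU)⟩

end Pool.Agent.Results.MP_6b7d8e_lc.NotRealisable
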